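import Mathlib

set_option autoImplicit false

namespace Pool.Agent.Results.MP_551fda_co.UpperBound

open SimpleGraph

/-- some finite `k`-chromatic graph without `K_{k-1}` has maximum degree at most `d` -/
def Good (k d : ℕ) : Prop :=
  ∃ (n : ℕ) (G : SimpleGraph (Fin n)) (_ : DecidableRel G.Adj),
    G.chromaticNumber = (k : ℕ∞) ∧ G.CliqueFree (k - 1) ∧ G.maxDegree ≤ d

/-- a finite graph without `(k-1)`-colouring, without `K_{k-1}` and of maximum degree at most `d`
yields a `k`-chromatic one -/
lemma good_of {V : Type} [Fintype V] [DecidableEq V] (G : SimpleGraph V) [DecidableRel G.Adj]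
    (k d : ℕ) (hk : 1 ≤ k) (hcol : ¬ G.Colorable (k - 1)) (hcf : G.CliqueFree (k - 1))
    (hdeg : ∀ v, G.degree v ≤ d) : Good k d := by
  classical
  -- a minimal set of vertices inducing a non-(k-1)-colourable graph
  have hex : ∃ S : Finset V, ¬ (G.induce (S : Set V)).Colorable (k - 1) := by
    refine ⟨Finset.univ, fun h => hcol ?_⟩
    obtain ⟨c⟩ := h
    exact ⟨⟨fun v => c ⟨v, by simp⟩, fun {a b} hab => c.valid (by simpa using hab)⟩⟩
  obtain ⟨S, hmin⟩ := exists_minimal_of_wellFoundedLT
    (fun S : Finset V => ¬ (G.induce (S : Set V)).Colorable (k - 1)) hex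
  have hS : ¬ (G.induce (S : Set V)).Colorable (k - 1) := hmin.prop
  have hne : S.Nonempty := by
    rw [Finset.nonempty_iff_ne_empty]
    rintro rfl
    apply hS
    exact ⟨⟨fun v => (by simpa using v.2 : False).elim, fun {a b} _ => (by simpa using a.2 : False).elim⟩⟩
  obtain ⟨v, hv⟩ := hne
  have hcol' : (G.induce ((S.erase v : Finset V) : Set V)).Colorable (k - 1) := by
    by_contra hc
    have := hmin.le_of_le hc (Finset.erase_subset v S)
    exact (Finset.notMem_erase v S) (this hv)
  have hcolk : (G.induce (S : Set V)).Colorable (k - 1 + 1) := by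
    obtain ⟨c⟩ := hcol'
    refine ⟨⟨fun u => if h : (u : V) = v then Fin.last (k - 1) else
      (c ⟨u, Finset.mem_coe.2 (Finset.mem_erase.2 ⟨h, u.2⟩)⟩).castSucc, ?_⟩⟩
    rintro ⟨a, ha⟩ ⟨b, hb⟩ hab
    have hab' : G.Adj a b := by simpa using hab
    simp only [top_adj]
    by_cases h1 : a = v <;> by_cases h2 : b = v
    · subst h1; subst h2; exact absurd hab' (G.irrefl)
    · simp only [h1, h2, dite_true, dite_false]
      exact (Fin.castSucc_lt_last _).ne'
    · simp only [h1, h2, dite_true, dite_false]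
      exact (Fin.castSucc_lt_last _).ne
    · simp only [h1, h2, dite_false]
      intro h
      exact c.valid (v := ⟨a, Finset.mem_coe.2 (Finset.mem_erase.2 ⟨h1, ha⟩)⟩)
        (w := ⟨b, Finset.mem_coe.2 (Finset.mem_erase.2 ⟨h2, hb⟩)⟩)
        (by simpa using hab') (Fin.castSucc_injective _ h)
  have hchi : (G.induce (S : Set V)).chromaticNumber = (k : ℕ∞) := by
    have := (chromaticNumber_eq_iff_colorable_not_colorable
      (G := G.induce (S : Set V)) (n := k - 1)).2 ⟨hcolk, hS⟩
    rw [this]
    have : k - 1 + 1 = k := by omega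
    exact_mod_cast this
  -- transfer to `Fin n`
  let e : (S : Set V) ≃ Fin S.card := S.equivFin
  let H : SimpleGraph (Fin S.card) := (G.induce (S : Set V)).comap e.symm
  let φ : H ≃g G.induce (S : Set V) := SimpleGraph.Iso.comap e.symm _
  have : DecidableRel H.Adj := Classical.decRel _
  have h1 : H.chromaticNumber = (k : ℕ∞) := by rw [← hchi]; exact chromaticNumber_congr φ
  have h2 : H.CliqueFree (k - 1) := by
    refine hcf.comap ?_
    exact ⟨((SimpleGraph.Embedding.induce (G := G) (S : Set V)).toCopy.comp φ.toCopy)⟩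
  have h3 : H.maxDegree ≤ d := by
    apply maxDegree_le_of_forall_degree_le
    intro u
    refine le_trans ?_ (hdeg (φ u : V))
    rw [← card_neighborFinset_eq_degree, ← card_neighborFinset_eq_degree]
    refine Finset.card_le_card_of_injOn (fun w => (φ w : V)) ?_ ?_
    · intro w hw
      have : H.Adj u w := by simpa using hw
      have h4 : (G.induce (S : Set V)).Adj (φ u) (φ w) := φ.map_adj_iff.2 this
      simpa using h4
    · intro a _ b _ hab
      exact φ.injective (Subtype.ext hab)
  exact ⟨S.card, H, inferInstance, h1, h2, h3⟩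

/-- pigeonhole: if among any three vertices two are adjacent, and there are more than `2m`
vertices, there is no `m`-colouring -/
lemma not_colorable_of_card {V : Type} [Fintype V] [DecidableEq V] (G : SimpleGraph V) (m : ℕ)
    (hcard : 2 * m < Fintype.card V)
    (h3 : ∀ a b c : V, a ≠ b → a ≠ c → b ≠ c → G.Adj a b ∨ G.Adj a c ∨ G.Adj b c) :
    ¬ G.Colorable m := by
  rintro ⟨C⟩
  obtain ⟨y, _, hy⟩ := Finset.exists_lt_card_fiber_of_mul_lt_card_of_maps_to
    (s := (Finset.univ : Finset V)) (t := (Finset.univ : Finset (Fin m))) (f := C) (n := 2)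
    (fun _ _ => Finset.mem_univ _) (by simpa [mul_comm] using hcard)
  obtain ⟨a, ha, b, hb, c, hc, hab, hac, hbc⟩ := Finset.two_lt_card.1 hy
  simp only [Finset.mem_filter, Finset.mem_univ, true_and] at ha hb hc
  rcases h3 a b c hab hac hbc with h | h | h
  · exact C.valid h (ha.trans hb.symm)
  · exact C.valid h (ha.trans hc.symm)
  · exact C.valid h (hb.trans hc.symm)

/-- the part sizes of a balanced blow-up of the five-cycle with `n` vertices -/
def sz (n : ℕ) (i : Fin 5) : ℕ := ((i.val + 1) * n + 4) / 5 - (i.val * n + 4) / 5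

/-- equal or cyclically consecutive in `Fin 5` -/
def near (i j : Fin 5) : Prop := i = j ∨ i = j + 1 ∨ j = i + 1

instance (i j : Fin 5) : Decidable (near i j) := by unfold near; infer_instance

/-- the blow-up of the five-cycle by cliques with part sizes `sz n i` -/
def B (n : ℕ) : SimpleGraph (Σ i : Fin 5, Fin (sz n i)) where
  Adj x y := x ≠ y ∧ near x.1 y.1
  symm := ⟨fun x y h => ⟨h.1.symm, by
    rcases h.2 with h | h | h
    · exact Or.inl h.symm
    · exact Or.inr (Or.inr h)
    · exact Or.inr (Or.inl h)⟩⟩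
  loopless := ⟨fun x h => h.1 rfl⟩

instance (n : ℕ) : DecidableRel (B n).Adj := fun x y => by unfold B; infer_instance

lemma card_B (n : ℕ) : Fintype.card (Σ i : Fin 5, Fin (sz n i)) = n := by
  rw [Fintype.card_sigma]
  simp only [Fintype.card_fin]
  rw [Fin.sum_univ_five]
  have h3 : ((3 : Fin 5) : ℕ) = 3 := rfl
  have h4 : ((4 : Fin 5) : ℕ) = 4 := rfl
  simp only [sz, Fin.val_zero, Fin.val_one, Fin.val_two, h3, h4]
  omega

lemma near_three : ∀ a b c : Fin 5, near a b ∨ near a c ∨ near b c := by decide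

lemma B_not_colorable (n m : ℕ) (h : 2 * m < n) : ¬ (B n).Colorable m := by
  apply not_colorable_of_card
  · rw [card_B]; exact h
  · intro a b c hab hac hbc
    rcases near_three a.1 b.1 c.1 with h | h | h
    · exact Or.inl ⟨hab, h⟩
    · exact Or.inr (Or.inl ⟨hac, h⟩)
    · exact Or.inr (Or.inr ⟨hbc, h⟩)

/-- the number of vertices of `B n` whose index lies in a set `J` -/
lemma card_filter_B (n : ℕ) (J : Finset (Fin 5)) :
    (Finset.univ.filter (fun x : Σ i : Fin 5, Fin (sz n i) => x.1 ∈ J)).card =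
      ∑ i ∈ J, sz n i := by
  have : (Finset.univ.filter (fun x : Σ i : Fin 5, Fin (sz n i) => x.1 ∈ J)) =
      J.sigma (fun i => (Finset.univ : Finset (Fin (sz n i)))) := by
    ext x; simp
  rw [this, Finset.card_sigma]
  simp

lemma near_clique : ∀ J : Finset (Fin 5), (∀ a ∈ J, ∀ b ∈ J, near a b) →
    ∃ i : Fin 5, J ⊆ {i, i + 1} := by decide +kernel

/-- the value of a pair of consecutive parts -/
lemma sz_pair (n : ℕ) (i : Fin 5) : ∑ j ∈ ({i, i + 1} : Finset (Fin 5)), sz n j ≤ (2 * n + 4) / 5 := by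
  have h3 : ((3 : Fin 5) : ℕ) = 3 := rfl
  have h4 : ((4 : Fin 5) : ℕ) = 4 := rfl
  obtain ⟨q, r, hr, rfl⟩ : ∃ q r, r < 5 ∧ n = 5 * q + r := ⟨n / 5, n % 5, by omega, by omega⟩
  fin_cases i
  · show ∑ j ∈ ({0, 1} : Finset (Fin 5)), sz _ j ≤ _
    rw [Finset.sum_pair (by decide)]
    simp only [sz, Fin.val_zero, Fin.val_one]
    interval_cases r <;> omega
  · show ∑ j ∈ ({1, 2} : Finset (Fin 5)), sz _ j ≤ _
    rw [Finset.sum_pair (by decide)]
    simp only [sz, Fin.val_two, Fin.val_one]
    interval_cases r <;> omega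
  · show ∑ j ∈ ({2, 3} : Finset (Fin 5)), sz _ j ≤ _
    rw [Finset.sum_pair (by decide)]
    simp only [sz, Fin.val_two, h3]
    interval_cases r <;> omega
  · show ∑ j ∈ ({3, 4} : Finset (Fin 5)), sz _ j ≤ _
    rw [Finset.sum_pair (by decide)]
    simp only [sz, h3, h4]
    interval_cases r <;> omega
  · show ∑ j ∈ ({4, 0} : Finset (Fin 5)), sz _ j ≤ _
    rw [Finset.sum_pair (by decide)]
    simp only [sz, Fin.val_zero, h4]
    interval_cases r <;> omega

/-- the value of three consecutive parts -/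
lemma sz_triple (n : ℕ) (i : Fin 5) :
    ∑ j ∈ (Finset.univ.filter (fun j => near i j) : Finset (Fin 5)), sz n j ≤ (3 * n + 4) / 5 := by
  have h3 : ((3 : Fin 5) : ℕ) = 3 := rfl
  have h4 : ((4 : Fin 5) : ℕ) = 4 := rfl
  obtain ⟨q, r, hr, rfl⟩ : ∃ q r, r < 5 ∧ n = 5 * q + r := ⟨n / 5, n % 5, by omega, by omega⟩
  fin_cases i
  · have : (Finset.univ.filter (fun j => near 0 j) : Finset (Fin 5)) = {4, 0, 1} := by decide
    show ∑ j ∈ (Finset.univ.filter (fun j => near 0 j) : Finset (Fin 5)), sz _ j ≤ _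
    rw [this, Finset.sum_insert (by decide), Finset.sum_pair (by decide)]
    simp only [sz, Fin.val_zero, Fin.val_one, h4]
    interval_cases r <;> omega
  · have : (Finset.univ.filter (fun j => near 1 j) : Finset (Fin 5)) = {0, 1, 2} := by decide
    show ∑ j ∈ (Finset.univ.filter (fun j => near 1 j) : Finset (Fin 5)), sz _ j ≤ _
    rw [this, Finset.sum_insert (by decide), Finset.sum_pair (by decide)]
    simp only [sz, Fin.val_zero, Fin.val_one, Fin.val_two]
    interval_cases r <;> omega
  · have : (Finset.univ.filter (fun j => near 2 j) : Finset (Fin 5)) = {1, 2, 3} := by decide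
    show ∑ j ∈ (Finset.univ.filter (fun j => near 2 j) : Finset (Fin 5)), sz _ j ≤ _
    rw [this, Finset.sum_insert (by decide), Finset.sum_pair (by decide)]
    simp only [sz, Fin.val_one, Fin.val_two, h3]
    interval_cases r <;> omega
  · have : (Finset.univ.filter (fun j => near 3 j) : Finset (Fin 5)) = {2, 3, 4} := by decide
    show ∑ j ∈ (Finset.univ.filter (fun j => near 3 j) : Finset (Fin 5)), sz _ j ≤ _
    rw [this, Finset.sum_insert (by decide), Finset.sum_pair (by decide)]
    simp only [sz, Fin.val_two, h3, h4]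
    interval_cases r <;> omega
  · have : (Finset.univ.filter (fun j => near 4 j) : Finset (Fin 5)) = {3, 4, 0} := by decide
    show ∑ j ∈ (Finset.univ.filter (fun j => near 4 j) : Finset (Fin 5)), sz _ j ≤ _
    rw [this, Finset.sum_insert (by decide), Finset.sum_pair (by decide)]
    simp only [sz, Fin.val_zero, h3, h4]
    interval_cases r <;> omega

lemma B_cliqueFree (n m : ℕ) (h : (2 * n + 4) / 5 < m) : (B n).CliqueFree m := by
  intro s hs
  obtain ⟨hcl, hc⟩ := hs
  have hJ : ∀ a ∈ s.image Sigma.fst, ∀ b ∈ s.image Sigma.fst, near a b := by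
    intro a ha b hb
    obtain ⟨x, hx, rfl⟩ := Finset.mem_image.1 ha
    obtain ⟨y, hy, rfl⟩ := Finset.mem_image.1 hb
    by_cases hxy : x = y
    · subst hxy; exact Or.inl rfl
    · exact (hcl hx hy hxy).2
  obtain ⟨i, hi⟩ := near_clique _ hJ
  have h1 : s ⊆ Finset.univ.filter (fun x : Σ i : Fin 5, Fin (sz n i) => x.1 ∈ ({i, i + 1} : Finset (Fin 5))) := by
    intro x hx
    rw [Finset.mem_filter]
    exact ⟨Finset.mem_univ _, hi (Finset.mem_image_of_mem _ hx)⟩
  have h2 := Finset.card_le_card h1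
  rw [card_filter_B] at h2
  have h3 := sz_pair n i
  omega

lemma B_degree (n : ℕ) (x : Σ i : Fin 5, Fin (sz n i)) : (B n).degree x ≤ (3 * n + 4) / 5 - 1 := by
  rw [← card_neighborFinset_eq_degree]
  have h1 : (B n).neighborFinset x ⊆ (Finset.univ.filter (fun y : Σ i : Fin 5, Fin (sz n i) =>
      y.1 ∈ (Finset.univ.filter (fun j => near x.1 j) : Finset (Fin 5)))).erase x := by
    intro y hy
    have hadj : (B n).Adj x y := by simpa using hy
    rw [Finset.mem_erase, Finset.mem_filter, Finset.mem_filter]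
    exact ⟨hadj.1.symm, Finset.mem_univ _, Finset.mem_univ _, hadj.2⟩
  have h2 := Finset.card_le_card h1
  rw [Finset.card_erase_of_mem (by
    rw [Finset.mem_filter, Finset.mem_filter]
    exact ⟨Finset.mem_univ _, Finset.mem_univ _, Or.inl rfl⟩), card_filter_B] at h2
  have h3 := sz_triple n x.1
  omega

/-- balanced blow-ups of the five-cycle -/
lemma good_blowup (k : ℕ) (hk : 8 ≤ k) : Good k (k + (k - 4) / 5) := by
  refine good_of (B (2 * k - 1)) k _ (by omega) (B_not_colorable _ _ (by omega))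
    (B_cliqueFree _ _ (by omega)) (fun v => (B_degree _ v).trans (by omega))

/-- non-adjacency in a pentagon -/
def far (i j : Fin 5) : Prop := j = i + 2 ∨ i = j + 2

instance (i j : Fin 5) : Decidable (far i j) := by unfold far; infer_instance

/-- the join of two five-cycles and a complete graph on `m` vertices -/
def J (m : ℕ) : SimpleGraph ((Fin 2 × Fin 5) ⊕ Fin m) where
  Adj x y := x ≠ y ∧ ¬ ∃ (p : Fin 2) (i j : Fin 5), x = Sum.inl (p, i) ∧ y = Sum.inl (p, j) ∧ far i j
  symm := ⟨fun x y h => ⟨h.1.symm, by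
    rintro ⟨p, i, j, hx, hy, hf⟩
    exact h.2 ⟨p, j, i, hy, hx, hf.symm⟩⟩⟩
  loopless := ⟨fun x h => h.1 rfl⟩

lemma far_three : ∀ a b c : Fin 5, a ≠ b → a ≠ c → b ≠ c → ¬ far a b ∨ ¬ far a c ∨ ¬ far b c := by
  decide

lemma image_pent {m r : ℕ} (C : (J m).Coloring (Fin r)) (p : Fin 2) :
    3 ≤ ((Finset.univ : Finset (Fin 5)).image (fun i => C (Sum.inl (p, i)))).card := by
  by_contra hlt
  have hc : ((Finset.univ : Finset (Fin 5)).image (fun i => C (Sum.inl (p, i)))).card * 2 <
      (Finset.univ : Finset (Fin 5)).card := by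
    rw [Finset.card_univ, Fintype.card_fin]; omega
  obtain ⟨y, _, hy⟩ := Finset.exists_lt_card_fiber_of_mul_lt_card_of_maps_to
    (f := fun i => C (Sum.inl (p, i)))
    (fun i hi => Finset.mem_image_of_mem (fun i => C (Sum.inl (p, i))) hi) hc
  obtain ⟨a, ha, b, hb, c, hc, hab, hac, hbc⟩ := Finset.two_lt_card.1 hy
  simp only [Finset.mem_filter, Finset.mem_univ, true_and] at ha hb hc
  have key : ∀ i j : Fin 5, i ≠ j → C (Sum.inl (p, i)) = C (Sum.inl (p, j)) → far i j := by
    intro i j hij heq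
    by_contra hf
    refine C.valid (v := Sum.inl (p, i)) (w := Sum.inl (p, j)) ⟨?_, ?_⟩ heq
    · intro h
      simp only [Sum.inl.injEq, Prod.mk.injEq, true_and] at h
      exact hij h
    · rintro ⟨q, i', j', hx, hy, hf'⟩
      simp only [Sum.inl.injEq, Prod.mk.injEq] at hx hy
      obtain ⟨_, rfl⟩ := hx
      obtain ⟨_, rfl⟩ := hy
      exact hf hf'
  rcases far_three a b c hab hac hbc with h | h | h
  · exact h (key a b hab (ha.trans hb.symm))
  · exact h (key a c hac (ha.trans hc.symm))
  · exact h (key b c hbc (hb.trans hc.symm))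

lemma J_not_colorable (m r : ℕ) (h : r < m + 6) : ¬ (J m).Colorable r := by
  rintro ⟨C⟩
  set A0 := (Finset.univ : Finset (Fin 5)).image (fun i => C (Sum.inl ((0 : Fin 2), i))) with hA0
  set A1 := (Finset.univ : Finset (Fin 5)).image (fun i => C (Sum.inl ((1 : Fin 2), i))) with hA1
  set A2 := (Finset.univ : Finset (Fin m)).image (fun i => C (Sum.inr i)) with hA2
  have h0 : 3 ≤ A0.card := image_pent C 0
  have h1 : 3 ≤ A1.card := image_pent C 1
  have h2 : A2.card = m := by
    rw [hA2, Finset.card_image_of_injective]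
    · simp
    · intro i j hij
      by_contra hne
      refine C.valid (v := Sum.inr i) (w := Sum.inr j) ⟨?_, ?_⟩ hij
      · intro h; exact hne (Sum.inr.inj h)
      · rintro ⟨_, _, _, hx, _⟩
        exact absurd hx (by simp)
  have d01 : Disjoint A0 A1 := by
    rw [Finset.disjoint_left]
    intro c hc0 hc1
    obtain ⟨i, _, hi⟩ := Finset.mem_image.1 hc0
    obtain ⟨j, _, hj⟩ := Finset.mem_image.1 hc1
    refine C.valid (v := Sum.inl ((0 : Fin 2), i)) (w := Sum.inl ((1 : Fin 2), j)) ⟨?_, ?_⟩
      (hi.trans hj.symm)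
    · intro h
      simp at h
    · rintro ⟨q, i', j', hx, hy, _⟩
      simp only [Sum.inl.injEq, Prod.mk.injEq] at hx hy
      exact absurd (hx.1.trans hy.1.symm) (by decide)
  have d2 : ∀ (p : Fin 2), Disjoint
      ((Finset.univ : Finset (Fin 5)).image (fun i => C (Sum.inl (p, i)))) A2 := by
    intro p
    rw [Finset.disjoint_left]
    intro c hc0 hc1
    obtain ⟨i, _, hi⟩ := Finset.mem_image.1 hc0
    obtain ⟨j, _, hj⟩ := Finset.mem_image.1 hc1
    refine C.valid (v := Sum.inl (p, i)) (w := Sum.inr j) ⟨by simp, ?_⟩ (hi.trans hj.symm)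
    rintro ⟨_, _, _, _, hy, _⟩
    exact absurd hy (by simp)
  have hd : Disjoint (A0 ∪ A1) A2 := by
    rw [Finset.disjoint_union_left]
    exact ⟨d2 0, d2 1⟩
  have hu : ((A0 ∪ A1) ∪ A2).card ≤ r := by
    refine (Finset.card_le_univ _).trans (by simp)
  rw [Finset.card_union_of_disjoint hd, Finset.card_union_of_disjoint d01] at hu
  omega

lemma J_cliqueFree (m r : ℕ) (h : m + 4 < r) : (J m).CliqueFree r := by
  intro s hs
  obtain ⟨hcl, hc⟩ := hs
  have hp : ∀ p : Fin 2, ((Finset.univ : Finset (Fin 5)).filter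
      (fun i => (Sum.inl (p, i) : (Fin 2 × Fin 5) ⊕ Fin m) ∈ s)).card ≤ 2 := by
    intro p
    by_contra hgt
    obtain ⟨a, ha, b, hb, c, hc, hab, hac, hbc⟩ := Finset.two_lt_card.1 (not_le.1 hgt)
    simp only [Finset.mem_filter, Finset.mem_univ, true_and] at ha hb hc
    have key : ∀ i j : Fin 5, i ≠ j → (Sum.inl (p, i) : (Fin 2 × Fin 5) ⊕ Fin m) ∈ s →
        (Sum.inl (p, j) : (Fin 2 × Fin 5) ⊕ Fin m) ∈ s → ¬ far i j := by
      intro i j hij hi hj hf
      have := hcl hi hj (by simpa using hij)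
      exact this.2 ⟨p, i, j, rfl, rfl, hf⟩
    have h3 : ∀ a b c : Fin 5, a ≠ b → a ≠ c → b ≠ c → far a b ∨ far a c ∨ far b c := by decide
    rcases h3 a b c hab hac hbc with h | h | h
    · exact key a b hab ha hb h
    · exact key a c hac ha hc h
    · exact key b c hbc hb hc h
  have hsub : s ⊆ (((Finset.univ : Finset (Fin 5)).filter
      (fun i => (Sum.inl ((0 : Fin 2), i) : (Fin 2 × Fin 5) ⊕ Fin m) ∈ s)).image
        (fun i => (Sum.inl ((0 : Fin 2), i) : (Fin 2 × Fin 5) ⊕ Fin m)) ∪
      ((Finset.univ : Finset (Fin 5)).filter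
      (fun i => (Sum.inl ((1 : Fin 2), i) : (Fin 2 × Fin 5) ⊕ Fin m) ∈ s)).image
        (fun i => (Sum.inl ((1 : Fin 2), i) : (Fin 2 × Fin 5) ⊕ Fin m))) ∪
      (Finset.univ : Finset (Fin m)).image Sum.inr := by
    intro x hx
    rcases x with ⟨p, i⟩ | j
    · fin_cases p
      · exact Finset.mem_union_left _ (Finset.mem_union_left _ (Finset.mem_image.2
          ⟨i, Finset.mem_filter.2 ⟨Finset.mem_univ _, hx⟩, rfl⟩))
      · exact Finset.mem_union_left _ (Finset.mem_union_right _ (Finset.mem_image.2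
          ⟨i, Finset.mem_filter.2 ⟨Finset.mem_univ _, hx⟩, rfl⟩))
    · exact Finset.mem_union_right _ (Finset.mem_image_of_mem _ (Finset.mem_univ _))
  have h1 := Finset.card_le_card hsub
  have h2 := Finset.card_union_le (((Finset.univ : Finset (Fin 5)).filter
      (fun i => (Sum.inl ((0 : Fin 2), i) : (Fin 2 × Fin 5) ⊕ Fin m) ∈ s)).image
        (fun i => (Sum.inl ((0 : Fin 2), i) : (Fin 2 × Fin 5) ⊕ Fin m)) ∪
      ((Finset.univ : Finset (Fin 5)).filter
      (fun i => (Sum.inl ((1 : Fin 2), i) : (Fin 2 × Fin 5) ⊕ Fin m) ∈ s)).image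
        (fun i => (Sum.inl ((1 : Fin 2), i) : (Fin 2 × Fin 5) ⊕ Fin m)))
      ((Finset.univ : Finset (Fin m)).image Sum.inr)
  have h3 := Finset.card_union_le (((Finset.univ : Finset (Fin 5)).filter
      (fun i => (Sum.inl ((0 : Fin 2), i) : (Fin 2 × Fin 5) ⊕ Fin m) ∈ s)).image
        (fun i => (Sum.inl ((0 : Fin 2), i) : (Fin 2 × Fin 5) ⊕ Fin m)))
      (((Finset.univ : Finset (Fin 5)).filter
      (fun i => (Sum.inl ((1 : Fin 2), i) : (Fin 2 × Fin 5) ⊕ Fin m) ∈ s)).image
        (fun i => (Sum.inl ((1 : Fin 2), i) : (Fin 2 × Fin 5) ⊕ Fin m)))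
  have h4 : (((Finset.univ : Finset (Fin 5)).filter
      (fun i => (Sum.inl ((0 : Fin 2), i) : (Fin 2 × Fin 5) ⊕ Fin m) ∈ s)).image
        (fun i => (Sum.inl ((0 : Fin 2), i) : (Fin 2 × Fin 5) ⊕ Fin m))).card ≤ 2 :=
    Finset.card_image_le.trans (hp 0)
  have h5 : (((Finset.univ : Finset (Fin 5)).filter
      (fun i => (Sum.inl ((1 : Fin 2), i) : (Fin 2 × Fin 5) ⊕ Fin m) ∈ s)).image
        (fun i => (Sum.inl ((1 : Fin 2), i) : (Fin 2 × Fin 5) ⊕ Fin m))).card ≤ 2 :=
    Finset.card_image_le.trans (hp 1)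
  have h6 : ((Finset.univ : Finset (Fin m)).image
      (Sum.inr : Fin m → (Fin 2 × Fin 5) ⊕ Fin m)).card ≤ m :=
    Finset.card_image_le.trans (by simp)
  omega

/-- the join of two pentagons and a clique -/
lemma good_join (k : ℕ) (hk : 6 ≤ k) : Good k (k + 3) := by
  classical
  refine good_of (J (k - 6)) k _ (by omega) (J_not_colorable _ _ (by omega))
    (J_cliqueFree _ _ (by omega)) (fun v => ?_)
  have h := (J (k - 6)).degree_lt_card_verts v
  have hc : Fintype.card ((Fin 2 × Fin 5) ⊕ Fin (k - 6)) = 10 + (k - 6) := by simp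
  omega

/-- there is no set of `m` pairwise related elements in the list; the first number is fuel -/
def noClq {n : ℕ} (adj : Fin n → Fin n → Bool) : ℕ → ℕ → List (Fin n) → Bool
  | 0, _, _ => false
  | _ + 1, 0, _ => false
  | _ + 1, _ + 1, [] => true
  | t + 1, m + 1, v :: l =>
      noClq adj t m (l.filter (fun w => adj v w)) && noClq adj t (m + 1) l

lemma noClq_spec {n : ℕ} (adj : Fin n → Fin n → Bool) (hs : ∀ a b, adj a b = adj b a) :
    ∀ (t m : ℕ) (l : List (Fin n)), noClq adj t m l = true → ∀ s : Finset (Fin n),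
      (∀ x ∈ s, x ∈ l) → s.card = m → ∃ a ∈ s, ∃ b ∈ s, a ≠ b ∧ adj a b = false := by
  intro t
  induction t with
  | zero => intro m l h; simp [noClq] at h
  | succ t ih =>
    intro m l h s hsl hc
    match m, l with
    | 0, l => simp [noClq] at h
    | m + 1, [] =>
      have : s = ∅ := Finset.eq_empty_of_forall_notMem (fun x hx => by simpa using hsl x hx)
      rw [this] at hc
      simp at hc
    | m + 1, v :: l =>
      rw [noClq, Bool.and_eq_true] at h
      by_cases hv : v ∈ s
      · by_cases hall : ∀ b ∈ s, b ≠ v → adj v b = true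
        · obtain ⟨a, ha, b, hb, hab, h1⟩ := ih m _ h.1 (s.erase v) (fun x hx => by
            rw [Finset.mem_erase] at hx
            have h2 := hsl x hx.2
            rw [List.mem_cons] at h2
            rw [List.mem_filter]
            exact ⟨h2.resolve_left hx.1, hall x hx.2 hx.1⟩) (by
            rw [Finset.card_erase_of_mem hv]; omega)
          exact ⟨a, Finset.mem_of_mem_erase ha, b, Finset.mem_of_mem_erase hb, hab, h1⟩
        · push Not at hall
          obtain ⟨b, hb, hbv, h1⟩ := hall
          exact ⟨v, hv, b, hb, hbv.symm, by simpa using h1⟩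
      · exact ih (m + 1) l h.2 s (fun x hx => by
          have h2 := hsl x hx
          rw [List.mem_cons] at h2
          exact h2.resolve_left (fun h3 => hv (h3 ▸ hx))) hc

/-- a finite check that gives `Good k d` -/
lemma good_check (n : ℕ) (adj : Fin n → Fin n → Bool) (hs : ∀ a b, adj a b = adj b a)
    (hl : ∀ a, adj a a = false) (k d s : ℕ) (hk : 1 ≤ k) (hn : (k - 1) * s < n)
    (hind : noClq (fun a b => !adj a b) (n + 1) (s + 1) (List.finRange n) = true)
    (hclq : noClq adj (n + 1) (k - 1) (List.finRange n) = true)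
    (hdeg : ∀ v, (Finset.univ.filter (fun w => adj v w = true)).card ≤ d) : Good k d := by
  let G : SimpleGraph (Fin n) :=
    { Adj := fun a b => adj a b = true
      symm := ⟨fun a b h => by rw [hs]; exact h⟩
      loopless := ⟨fun a h => by rw [hl] at h; exact absurd h (by simp)⟩ }
  letI : DecidableRel G.Adj := fun a b => inferInstanceAs (Decidable (adj a b = true))
  refine good_of G k d hk ?_ ?_ ?_
  · rintro ⟨C⟩
    obtain ⟨y, _, hy⟩ := Finset.exists_lt_card_fiber_of_mul_lt_card_of_maps_to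
      (s := (Finset.univ : Finset (Fin n))) (t := (Finset.univ : Finset (Fin (k - 1)))) (f := C)
      (n := s) (fun _ _ => Finset.mem_univ _) (by simpa using hn)
    obtain ⟨t, ht, htc⟩ := Finset.exists_subset_card_eq (Nat.succ_le_of_lt hy)
    obtain ⟨a, ha, b, hb, hab, h1⟩ := noClq_spec (fun a b => !adj a b)
      (fun a b => by simp only [hs a b]) _ _ _ hind t (fun x _ => List.mem_finRange x) htc
    have h2 : adj a b = true := by simpa using h1
    have ha' := (Finset.mem_filter.1 (ht ha)).2
    have hb' := (Finset.mem_filter.1 (ht hb)).2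
    exact C.valid (v := a) (w := b) h2 (ha'.trans hb'.symm)
  · intro t ht
    obtain ⟨hcl, hc⟩ := ht
    obtain ⟨a, ha, b, hb, hab, h1⟩ := noClq_spec adj hs _ _ _ hclq t
      (fun x _ => List.mem_finRange x) hc
    have : adj a b = true := hcl ha hb hab
    rw [this] at h1
    exact absurd h1 (by simp)
  · intro v
    refine le_trans (le_of_eq ?_) (hdeg v)
    rw [← card_neighborFinset_eq_degree]
    congr 1
    ext w
    rw [mem_neighborFinset, Finset.mem_filter]
    exact ⟨fun h => ⟨Finset.mem_univ _, h⟩, fun h => h.2⟩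

/-- circulant adjacency on `Fin 13` and `Fin 11` -/
def circ (n : ℕ) (S : List ℕ) (a b : Fin n) : Bool := S.contains ((a.val + n - b.val) % n)

lemma good4 : Good 4 4 :=
  good_check 13 (circ 13 [1, 5, 8, 12]) (by decide +kernel) (by decide +kernel) 4 4 4
    (by norm_num) (by norm_num) (by decide +kernel) (by decide +kernel) (by decide +kernel)

lemma good5 : Good 5 6 :=
  good_check 13 (circ 13 [1, 3, 4, 9, 10, 12]) (by decide +kernel) (by decide +kernel) 5 6 3
    (by norm_num) (by norm_num) (by decide +kernel) (by decide +kernel) (by decide +kernel)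

lemma good6 : Good 6 6 :=
  good_check 11 (circ 11 [1, 2, 3, 8, 9, 10]) (by decide +kernel) (by decide +kernel) 6 6 2
    (by norm_num) (by norm_num) (by decide +kernel) (by decide +kernel) (by decide +kernel)

lemma good7 : Good 7 8 :=
  good_check 13 (circ 13 [2, 3, 4, 6, 7, 9, 10, 11]) (by decide +kernel) (by decide +kernel) 7 8 2
    (by norm_num) (by norm_num) (by decide +kernel) (by decide +kernel) (by decide +kernel)

/-- For every `k ≥ 4` there is a finite `k`-chromatic graph with no `K_{k-1}` and maximum degree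
at most `k + min 3 ⌊(k-4)/5⌋`, plus one if `k` is `5` or `7`. -/
theorem result (k : ℕ) (hk : 4 ≤ k) :
    ∃ (n : ℕ) (G : SimpleGraph (Fin n)) (_ : DecidableRel G.Adj),
      G.chromaticNumber = (k : ℕ∞) ∧ G.CliqueFree (k - 1) ∧
      G.maxDegree ≤ k + min 3 ((k - 4) / 5) + (if k = 5 ∨ k = 7 then 1 else 0) := by
  change Good k _
  by_cases h8 : 8 ≤ k
  · have h57 : ¬ (k = 5 ∨ k = 7) := by omega
    rw [if_neg h57, add_zero]
    rcases le_total ((k - 4) / 5) 3 with h | h
    · rw [min_eq_right h]; exact good_blowup k h8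
    · rw [min_eq_left h]; exact good_join k (by omega)
  · interval_cases k
    · exact good4
    · exact good5
    · exact good6
    · exact good7

end Pool.Agent.Results.MP_551fda_co.UpperBound
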